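import Pool.Agent.TH518.CW.TwoA
import Pool.Agent.TH518.CW.TwoC

/-!
# Collisions of eleven and of thirteen points: emptiness after one simple point
-/

set_option autoImplicit false

namespace Pool.Agent.Q197.SC

open Pool.Agent.TH716.CF Pool.Agent.TH518.CW

variable {q v n : ℕ} {K σ : ℝ}

/-- the apex is the only point off the long rows, so one simple point is enough -/
theorem empG_one (h : Num2 q v n K σ) {p : ℕ} (hp : p = 0 ∨ p.Prime) {m d : ℕ}
    (hT : σ * d - (n - 3 * σ) / 2 < (n : ℝ) * m) :
    EmpG p (fun o : Option (Fin 1) => o.elim n fun _ => 1) (fun o => o.elim m fun _ => 1)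
      (FlS (HH q v K d)) := by
  classical
  obtain ⟨hfin, -⟩ := hh_card h.num (d := d)
  have hK := h.num.hK
  have hv0 : (0 : ℝ) ≤ v := Nat.cast_nonneg v
  have hL : 0 < K + v := by linarith
  obtain ⟨g0, hg0⟩ : ∃ g0 : ℤ, g0 = ⌊K * d / 3 / (K + v)⌋ := ⟨_, rfl⟩
  obtain ⟨W, hW⟩ : ∃ W : Finset (ℤ × ℤ), W = hfin.toFinset.filter
      (fun x => ((x.1 - 2 * d : ℤ) : ℝ) ≤ zz q v K d x.2) := ⟨_, rfl⟩
  have hWS : ∀ x ∈ W, x ∈ FlS (HH q v K d) := by
    intro x hx
    rw [hW] at hx
    exact hfin.mem_toFinset.1 (Finset.mem_filter.1 hx).1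
  refine EmpG_add hp hfin (W := W) (v := 1) hWS ?_ (fun x hx => (hWS x hx).1) ?_
  · rw [Set.ncard_eq_toFinset_card _ hfin]
    have hsub : hfin.toFinset ⊆ insert ((2 * (d : ℤ), g0) : ℤ × ℤ) W := by
      intro x hx
      rw [Finset.mem_insert]
      by_cases h1 : ((x.1 - 2 * d : ℤ) : ℝ) ≤ zz q v K d x.2
      · right
        rw [hW]
        exact Finset.mem_filter.2 ⟨hx, h1⟩
      · left
        obtain ⟨a, g⟩ := x
        obtain ⟨h2, h3⟩ := mem_end' h (hfin.mem_toFinset.1 hx)
        rcases h3 with h3 | ⟨-, h3⟩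
        · exact absurd h3 h1
        · simp only at h1
          subst h3
          have h4 : zz q v K d g < 0 := by
            have : ((2 * (d : ℤ) - 2 * d : ℤ) : ℝ) = 0 := by push_cast; ring
            rw [this] at h1
            exact not_le.1 h1
          have h5 : 0 ≤ yy v K d g := by
            refine le_trans (le_of_eq ?_) h2
            push_cast
            ring
          have h6 : yy v K d g < K + v := by
            unfold zz at h4
            by_contra hcon
            exact absurd h4 (not_lt.2 (div_nonneg (by linarith) h.den.le))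
          unfold yy at h5 h6
          ext
          · rfl
          · simp only
            rw [hg0, eq_comm, Int.floor_eq_iff]
            constructor
            · rw [le_div_iff₀ hL]
              linarith
            · rw [div_lt_iff₀ hL]
              linarith
    exact (Finset.card_le_card hsub).trans (Finset.card_insert_le _ _)
  · intro k x hx x' hx' hk hk'
    have h1 := (mem_end' h (a := x.1) (g := x.2) (hWS x hx)).1
    have h2 : ((x'.1 - 2 * d : ℤ) : ℝ) ≤ zz q v K d x'.2 := by
      rw [hW] at hx'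
      exact (Finset.mem_filter.1 hx').2
    have hkR : (k : ℝ) ≤ x.2 := by exact_mod_cast hk
    have hkR' : (k : ℝ) ≤ x'.2 := by exact_mod_cast hk'
    have h3 := h1.trans (yy_anti h (d := d) hkR)
    have h4 := h2.trans (zz_anti h (d := d) hkR')
    have h5 := h.sum d k
    have h6 : (n : ℝ) * m - n * k ≤ ((n * (m - k) : ℕ) : ℝ) := by
      rw [← mul_sub, Nat.cast_mul]
      refine mul_le_mul_of_nonneg_left ?_ (Nat.cast_nonneg _)
      have : ((m : ℤ) - k : ℤ) ≤ ((m - k : ℕ) : ℤ) := by omega
      exact_mod_cast this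
    have h7 : ((x'.1 - x.1 : ℤ) : ℝ) < (((n * (m - k) : ℕ) : ℤ) : ℝ) := by
      rw [Int.cast_natCast]
      push_cast at h3 h4 ⊢
      push_cast at h6
      linarith
    exact_mod_cast h7

end Pool.Agent.Q197.SC
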