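import Pool.Agent.TH518.CW.TwoC

/-!
# Collisions: from one simple point to at most one curve, for general collisions over every field
-/

set_option autoImplicit false

namespace Pool.Agent.Q197.SC

open Polynomial Pool.Agent.H932R2 Pool.Agent.H932R3 Pool.Agent.TH545.CF Pool.Agent.TH518.CW
  Pool.Agent.TH716.CF

universe u v

theorem bot_iff {K : Type v} [Field K] {J : Ideal K[X][X]} {M : Finset (ℕ × ℕ)} :
    mspan K (↑M : Set (ℕ × ℕ)) ⊓ Submodule.restrictScalars K J = ⊥ ↔
      ∀ v : Fin M.card → K, (∑ s, v s • mon K (enumM M s)) ∈ J → v = 0 := by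
  constructor
  · intro h v hv
    have h1 : (∑ s, v s • mon K (enumM M s)) ∈
        mspan K (↑M : Set (ℕ × ℕ)) ⊓ Submodule.restrictScalars K J :=
      ⟨(mem_mspan_iff M _).2 ⟨v, rfl⟩, hv⟩
    rw [h, Submodule.mem_bot] at h1
    exact funext fun i => mspan_eq_zero v h1 i
  · intro h
    rw [eq_bot_iff]
    rintro f ⟨hf1, hf2⟩
    obtain ⟨c, rfl⟩ := (mem_mspan_iff M f).1 hf1
    rw [coordMap_apply] at hf2 ⊢
    rw [h c hf2]
    simp

/-- no element in the span of the monomials of `M`: from one collision to general collisions over every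
field of the same characteristic -/
theorem transfer_set {K : Type v} [Field K] {L : Type u} [Field L] (p : ℕ) [CharP K p]
    [CharP L p] {r m : ℕ} {c0 : K} {a0 : Fin r → K} {M : Finset (ℕ × ℕ)}
    (h : mspan K (↑M : Set (ℕ × ℕ)) ⊓ Submodule.restrictScalars K (jetIdeal m c0 a0) = ⊥) :
    ∃ F : MvPolynomial (Fin (r + 1)) L, F ≠ 0 ∧
      ∀ (c : L) (a : Fin r → L), MvPolynomial.eval (Fin.cons c a : Fin (r + 1) → L) F ≠ 0 →
        mspan L (↑M : Set (ℕ × ℕ)) ⊓ Submodule.restrictScalars L (jetIdeal m c a) = ⊥ := by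
  classical
  obtain ⟨b, hb⟩ := Pool.Agent.TH15.Nag.exists_rows
    (fun (q : EE r m) (s : Fin M.card) =>
      MvPolynomial.aeval (Fin.cons c0 a0 : Fin (r + 1) → K) (entC r q.1 (enumM M s))) (by
    intro v hv
    exact bot_iff.1 h v ((mem_jetIdeal _ v).2 hv))
  let D : MvPolynomial (Fin (r + 1)) ℤ :=
    (Matrix.of fun (j s : Fin M.card) => entC r (b j).1 (enumM M s)).det
  have hDK : MvPolynomial.aeval (Fin.cons c0 a0 : Fin (r + 1) → K) D ≠ 0 := by
    intro h0
    apply hb
    rw [← h0]
    show _ = (MvPolynomial.aeval (Fin.cons c0 a0 : Fin (r + 1) → K)) (Matrix.det _)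
    rw [AlgHom.map_det]
    rfl
  refine ⟨MvPolynomial.map (Int.castRingHom L) D, ?_, fun c a hc => ?_⟩
  · intro h1
    apply hDK
    have h2 : ∀ α, ((MvPolynomial.coeff α D : ℤ) : K) = 0 := by
      intro α
      have h3 := congrArg (MvPolynomial.coeff α) h1
      rw [MvPolynomial.coeff_map, MvPolynomial.coeff_zero, eq_intCast,
        CharP.intCast_eq_zero_iff L p] at h3
      rw [CharP.intCast_eq_zero_iff K p]
      exact h3
    have h3 : MvPolynomial.map (Int.castRingHom K) D = 0 := by
      ext α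
      rw [MvPolynomial.coeff_map, MvPolynomial.coeff_zero]
      exact h2 α
    have h4 : MvPolynomial.aeval (Fin.cons c0 a0 : Fin (r + 1) → K) D =
        MvPolynomial.eval (Fin.cons c0 a0 : Fin (r + 1) → K)
          (MvPolynomial.map (Int.castRingHom K) D) := by
      rw [MvPolynomial.eval_map, MvPolynomial.aeval_def]
      congr 1
    rw [h4, h3, map_zero]
  · have hdet : (Matrix.of fun (j s : Fin M.card) =>
        MvPolynomial.aeval (Fin.cons c a : Fin (r + 1) → L)
          (entC r (b j).1 (enumM M s))).det ≠ 0 := by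
      intro h0
      apply hc
      have h4 : MvPolynomial.eval (Fin.cons c a : Fin (r + 1) → L)
          (MvPolynomial.map (Int.castRingHom L) D) =
          MvPolynomial.aeval (Fin.cons c a : Fin (r + 1) → L) D := by
        rw [MvPolynomial.eval_map, MvPolynomial.aeval_def]
        congr 1
      rw [h4, ← h0]
      show (MvPolynomial.aeval (Fin.cons c a : Fin (r + 1) → L)) (Matrix.det _) = _
      rw [AlgHom.map_det]
      rfl
    refine bot_iff.2 fun v hv => ?_
    rw [mem_jetIdeal] at hv
    apply Matrix.eq_zero_of_mulVec_eq_zero hdet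
    funext j
    rw [Matrix.mulVec, dotProduct, Pi.zero_apply]
    exact hv (b j)

section lin
variable {K : Type u} [Field K]

theorem finrank_le_one {J : Submodule K (Polynomial (Polynomial K))} {T M : Finset (ℕ × ℕ)} {a : ℕ × ℕ}
    (hM : (↑M : Set (ℕ × ℕ)) ⊆ insert a ↑T) (h0 : mspan K (↑T : Set (ℕ × ℕ)) ⊓ J = ⊥) :
    Module.finrank K ↥(mspan K (↑M : Set (ℕ × ℕ)) ⊓ J) ≤ 1 := by
  classical
  set A := mspan K (↑T : Set (ℕ × ℕ)) with hA
  set S := Submodule.span K {Pool.Agent.H932R2.mon K a} with hS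
  have hfA : FiniteDimensional K A := by
    rw [hA]
    unfold mspan
    exact FiniteDimensional.span_of_finite K ((T.finite_toSet).image _)
  have hfS : FiniteDimensional K S := FiniteDimensional.span_of_finite K (Set.finite_singleton _)
  have hfM : FiniteDimensional K (mspan K (↑M : Set (ℕ × ℕ))) := by
    unfold mspan
    exact FiniteDimensional.span_of_finite K ((M.finite_toSet).image _)
  set W := mspan K (↑M : Set (ℕ × ℕ)) ⊓ J with hW
  have hfW : FiniteDimensional K W := Submodule.finiteDimensional_of_le (S₂ := mspan K (↑M : Set (ℕ × ℕ))) inf_le_left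
  have hMB : mspan K (↑M : Set (ℕ × ℕ)) ≤ A ⊔ S := by
    unfold mspan at hA ⊢
    rw [Submodule.span_le]
    rintro f ⟨p, hp, rfl⟩
    rcases hM hp with h1 | h1
    · rw [h1]
      exact Submodule.mem_sup_right (Submodule.subset_span (Set.mem_singleton _))
    · refine Submodule.mem_sup_left ?_
      rw [hA]
      exact Submodule.subset_span ⟨p, h1, rfl⟩
  have h1 : W ⊓ A = ⊥ := by
    rw [eq_bot_iff, ← h0]
    rintro f ⟨⟨_, h2⟩, h3⟩
    exact ⟨h3, h2⟩
  have h2 := Submodule.finrank_sup_add_finrank_inf_eq W A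
  rw [h1, finrank_bot, add_zero] at h2
  have h3 : W ⊔ A ≤ A ⊔ S := sup_le (inf_le_left.trans hMB) le_sup_left
  have h4 : Module.finrank K ↥(W ⊔ A) ≤ Module.finrank K ↥(A ⊔ S) := Submodule.finrank_mono h3
  have h5 : Module.finrank K ↥(A ⊔ S) ≤ Module.finrank K A + Module.finrank K S :=
    Submodule.finrank_add_le_finrank_add_finrank A S
  have h6 : Module.finrank K S ≤ 1 := by
    have := finrank_span_le_card (R := K) ({Pool.Agent.H932R2.mon K a} : Set (Polynomial (Polynomial K)))
    simpa using this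
  omega

/-- the number of conditions is at most the virtual one -/
theorem finrank_geV {ι : Type} [Fintype ι] {r : ℕ} {w : ι → ℕ} {c : ι → K} {γ : ι → Polynomial K}
    (M : Finset (ℕ × ℕ)) :
    M.card - ∑ a, (EE r (w a)).card ≤ Module.finrank K ↥(mspan K (↑M : Set (ℕ × ℕ)) ⊓
      Submodule.restrictScalars K (vIdeal r w c γ)) := by
  classical
  have hcard : Fintype.card (Σ a : ι, EE r (w a)) = ∑ a, (EE r (w a)).card := by
    rw [Fintype.card_sigma]
    exact Finset.sum_congr rfl fun a _ => Fintype.card_coe _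
  have h0 : Module.finrank K ↥(LinearMap.ker ((condMapV r w c γ).comp (coordMap K M))) =
      Module.finrank K ↥(mspan K (↑M : Set (ℕ × ℕ)) ⊓
      Submodule.restrictScalars K (vIdeal r w c γ)) := by
    refine LinearEquiv.finrank_eq (LinearEquiv.ofBijective
      { toFun := fun f => ⟨coordMap K M f.1, (mem_mspan_iff M _).2 ⟨f.1, rfl⟩,
          mem_vIdeal_iff.2 f.2⟩
        map_add' := fun f g => Subtype.ext (map_add _ _ _)
        map_smul' := fun a f => Subtype.ext (map_smul _ _ _) } ⟨?_, ?_⟩)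
    · intro f g hfg
      exact Subtype.ext (coordMap_inj M (congrArg Subtype.val hfg))
    · rintro ⟨f, hf, hf'⟩
      obtain ⟨a, rfl⟩ := (mem_mspan_iff M f).1 hf
      exact ⟨⟨a, mem_vIdeal_iff.1 hf'⟩, rfl⟩
  have h1 := LinearMap.finrank_range_add_finrank_ker ((condMapV r w c γ).comp (coordMap K M))
  have h2 := Submodule.finrank_le (LinearMap.range ((condMapV r w c γ).comp (coordMap K M)))
  rw [Module.finrank_fintype_fun_eq_card] at h1 h2
  rw [hcard] at h2
  rw [Fintype.card_fin, h0] at h1
  omega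

theorem finrank_ge {r m : ℕ} {c : K} {a : Fin r → K} (M : Finset (ℕ × ℕ)) :
    M.card - (EE r m).card ≤ Module.finrank K ↥(mspan K (↑M : Set (ℕ × ℕ)) ⊓
      Submodule.restrictScalars K (jetIdeal m c a)) := by
  have h := finrank_geV (r := r) (w := fun _ : Unit => m) (c := fun _ => c)
    (γ := fun _ => ∑ j : Fin r, C (a j) * X ^ (j : ℕ)) M
  rw [vIdeal_jet, Fintype.sum_unique] at h
  exact h

end lin

/-- the dimension of the space of forms of degree `d` through the collision -/
noncomputable def jdim {K : Type u} [Field K] (r m : ℕ) (c : K) (a : Fin r → K) (d : ℕ) : ℕ :=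
  Module.finrank K
    ↥(MvPolynomial.homogeneousSubmodule (Fin 3) K d ⊓
      (Submodule.restrictScalars K (jetIdeal m c a)).comap (deh K).toLinearMap)

theorem jdim_eq {K : Type u} [Field K] {r m : ℕ} {c : K} {a : Fin r → K} {d : ℕ} :
    jdim r m c a d = Module.finrank K ↥(mspan K (Tset d) ⊓
      Submodule.restrictScalars K (jetIdeal m c a)) := by
  unfold jdim
  exact finrank_forms _ _ fun F _ => Iff.rfl

theorem jdim_ge {K : Type u} [Field K] {r m : ℕ} {c : K} {a : Fin r → K} {d : ℕ} :
    (d + 2).choose 2 - r * (m + 1).choose 2 ≤ jdim r m c a d := by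
  have h1 := finrank_ge (r := r) (m := m) (c := c) (a := a) (Tfin d)
  rw [coe_Tfin, ← jdim_eq, card_Tfin_choose, card_EE_eq'] at h1
  exact h1

/-- one simple point: at most one curve through a general collision, in all degrees up to `d` -/
theorem one_of_emp {p : ℕ} {k : Type u} [Field k] [CharP k p] {r m d : ℕ} {τ : ℝ}
    (h0 : 0 < τ) (h1 : τ < 1)
    (hE : EmpG p (fun o : Option (Fin 1) => o.elim r fun _ => 1) (fun o => o.elim m fun _ => 1)
      (Tri d τ)) :
    ∃ F : MvPolynomial (Fin (r + 1)) k, F ≠ 0 ∧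
      ∀ (c : k) (a : Fin r → k), MvPolynomial.eval (Fin.cons c a : Fin (r + 1) → k) F ≠ 0 →
        ∀ d' ≤ d, jdim r m c a d' ≤ 1 := by
  classical
  obtain ⟨L, _, _, c0, a0, lm, hlm⟩ := key_coll_v h0 h1 hE
  -- the coefficient of a monomial
  have hco : ∀ (s0 : ℕ × ℕ), ∀ f ∈ mspan L (↑((Tfin d).erase s0) : Set (ℕ × ℕ)),
      (f.coeff s0.2).coeff s0.1 = 0 := by
    intro s0 f hf
    unfold mspan at hf
    induction hf using Submodule.span_induction with
    | mem x hx =>
      obtain ⟨q, hq, rfl⟩ := hx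
      have hne : q ≠ s0 := (Finset.mem_erase.1 (Finset.mem_coe.1 hq)).1
      unfold mon
      rw [Polynomial.coeff_C_mul_X_pow]
      by_cases h2 : s0.2 = q.2
      · rw [if_pos h2, Polynomial.coeff_X_pow, if_neg]
        intro h3
        exact hne (Prod.ext h3.symm h2.symm)
      · rw [if_neg h2, Polynomial.coeff_zero]
    | zero => simp
    | add x y _ _ hx hy => rw [Polynomial.coeff_add, Polynomial.coeff_add, hx, hy, add_zero]
    | smul c x _ hx => rw [Polynomial.coeff_smul, Polynomial.coeff_smul, hx, smul_zero]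
  have hform : ∀ f ∈ mspan L (Tset d), f ∈ jetIdeal m c0 a0 → ∃ P : MvPolynomial (Fin 3) L,
      P.IsHomogeneous d ∧ deh L P = f ∧ (lm P = 0 → P = 0) := by
    intro f hf hfJ
    obtain ⟨P, hP, hP'⟩ := exists_form hf
    refine ⟨P, hP, hP', fun h2 => hlm P hP ?_ h2⟩
    have h3 : deh L P ∈ jetIdeal m c0 a0 := by rw [hP']; exact hfJ
    exact h3
  obtain ⟨s0, hs0⟩ : ∃ s0 : ℕ × ℕ, mspan L (↑((Tfin d).erase s0) : Set (ℕ × ℕ)) ⊓
      Submodule.restrictScalars L (jetIdeal m c0 a0) = ⊥ := by
    by_cases hall : ∀ f ∈ mspan L (Tset d), f ∈ jetIdeal m c0 a0 → f = 0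
    · refine ⟨(0, 0), ?_⟩
      rw [eq_bot_iff]
      rintro f ⟨hf1, hf2⟩
      refine hall f (mspan_mono ?_ hf1) hf2
      rw [← coe_Tfin]
      exact_mod_cast Finset.erase_subset _ _
    · push Not at hall
      obtain ⟨f1, hf1, hf1J, hf10⟩ := hall
      obtain ⟨P1, hP1, hP1', hl1⟩ := hform f1 hf1 hf1J
      have hP10 : P1 ≠ 0 := by
        intro h2
        apply hf10
        rw [← hP1', h2, map_zero]
      have hlne : lm P1 0 ≠ 0 := by
        intro h2
        apply hP10
        apply hl1
        funext i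
        rw [Subsingleton.elim i 0]
        exact h2
      obtain ⟨j, hj⟩ : ∃ j, f1.coeff j ≠ 0 := by
        by_contra hcon
        push Not at hcon
        exact hf10 (Polynomial.ext fun j => by rw [hcon j, Polynomial.coeff_zero])
      obtain ⟨i, hi⟩ : ∃ i, (f1.coeff j).coeff i ≠ 0 := by
        by_contra hcon
        push Not at hcon
        exact hj (Polynomial.ext fun i => by rw [hcon i, Polynomial.coeff_zero])
      refine ⟨(i, j), ?_⟩
      rw [eq_bot_iff]
      rintro f ⟨hf, hfJ⟩
      have hfT : f ∈ mspan L (Tset d) := by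
        refine mspan_mono ?_ hf
        rw [← coe_Tfin]
        exact_mod_cast Finset.erase_subset _ _
      obtain ⟨P, hP, hP', -⟩ := hform f hfT hfJ
      have h3 : P - (lm P 0 / lm P1 0) • P1 = 0 := by
        refine hlm _ ?_ ?_ ?_
        · exact (MvPolynomial.homogeneousSubmodule (Fin 3) L d).sub_mem hP
            ((MvPolynomial.homogeneousSubmodule (Fin 3) L d).smul_mem _ hP1)
        · have h4 : deh L (P - (lm P 0 / lm P1 0) • P1) ∈ jetIdeal m c0 a0 := by
            rw [map_sub, map_smul, hP', hP1']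
            refine Ideal.sub_mem _ hfJ ?_
            exact (Submodule.restrictScalars L (jetIdeal m c0 a0)).smul_mem _ hf1J
          exact h4
        · rw [map_sub, map_smul]
          funext i
          rw [Subsingleton.elim i 0]
          simp only [Pi.sub_apply, Pi.smul_apply, smul_eq_mul, Pi.zero_apply]
          rw [div_mul_cancel₀ _ hlne, sub_self]
      have h7 : deh L P = deh L ((lm P 0 / lm P1 0) • P1) := congrArg _ (sub_eq_zero.1 h3)
      have h5 : f = (lm P 0 / lm P1 0) • f1 := by
        rw [map_smul, hP', hP1'] at h7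
        exact h7
      have h6 := hco (i, j) f hf
      rw [h5, Polynomial.coeff_smul, Polynomial.coeff_smul, smul_eq_mul] at h6
      rw [Submodule.mem_bot, h5, (mul_eq_zero.1 h6).resolve_right hi, zero_smul]
  obtain ⟨F, hF, hF'⟩ := transfer_set (L := k) p hs0
  refine ⟨F, hF, fun c a hc d' hd' => ?_⟩
  have h2 := finrank_le_one (M := Tfin d') (a := s0) (T := (Tfin d).erase s0) (by
    intro x hx
    by_cases hx0 : x = s0
    · exact Or.inl hx0
    · right
      rw [Finset.mem_coe, Finset.mem_erase]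
      refine ⟨hx0, ?_⟩
      rw [coe_Tfin] at hx
      have hx' : x.1 + x.2 ≤ d' := hx
      rw [← Finset.mem_coe, coe_Tfin]
      exact (show x.1 + x.2 ≤ d by omega)) (hF' c a hc)
  rw [coe_Tfin, ← jdim_eq] at h2
  exact h2

end Pool.Agent.Q197.SC
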