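import Pool.Agent.Q197.SC.Emp
import Pool.Agent.Q197.SC.Open

/-!
# Collisions of eleven and of thirteen points: the expected dimension or one curve
-/

set_option autoImplicit false

namespace Pool.Agent.Q197.SC

open Pool.Agent.H932R2 Pool.Agent.H932R3 Pool.Agent.TH545.CF Pool.Agent.TH518.CW
  Pool.Agent.TH716.CF

universe u

/-- the degrees divisible by three in the window -/
def Win (r m d : ℕ) : Prop :=
  3 ∣ d ∧ √(r : ℝ) * m < d ∧ 2 * (d : ℝ) + 3 < √(r : ℝ) * (2 * m + 1)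

theorem jetDim_iff {K : Type u} [Field K] {r m d : ℕ} {c : K} {a : Fin r → K} :
    JetDim r m c a d ↔ jdim r m c a d = (d + 2).choose 2 - r * (m + 1).choose 2 := Iff.rfl

theorem coll_one {q v n : ℕ} {K σ : ℝ} (h : Num2 q v n K σ) (hσ : σ = √(n : ℝ)) (hn : 10 ≤ n)
    (m : ℕ) (k : Type u) [Field k] :
    ∃ F : MvPolynomial (Fin (n + 1)) k, F ≠ 0 ∧
      ∀ (c : k) (a : Fin n → k), MvPolynomial.eval (Fin.cons c a : Fin (n + 1) → k) F ≠ 0 →
        ∀ d : ℕ, JetDim n m c a d ∨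
          (jdim n m c a d = 1 ∧ (d + 2).choose 2 ≤ n * (m + 1).choose 2 ∧ Win n m d) := by
  classical
  obtain ⟨p, hp⟩ := CharP.exists k
  have hp' : p = 0 ∨ p.Prime := (CharP.char_is_prime_or_zero k p).symm
  obtain ⟨F1, hF1, h1⟩ := two_coll h hσ hn (m := m) k
  have hex : ∃ d : ℕ, σ * (2 * m + 1) ≤ 2 * d + 3 := by
    obtain ⟨d, hd⟩ := exists_nat_ge (σ * (2 * m + 1))
    exact ⟨d, by have : (0 : ℝ) ≤ d := Nat.cast_nonneg d; linarith⟩
  obtain ⟨F2, hF2, h2⟩ : ∃ F : MvPolynomial (Fin (n + 1)) k, F ≠ 0 ∧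
      ∀ (c : k) (a : Fin n → k), MvPolynomial.eval (Fin.cons c a : Fin (n + 1) → k) F ≠ 0 →
        ∀ d < Nat.find hex, jdim n m c a d ≤ 1 := by
    rcases Nat.eq_zero_or_pos (Nat.find hex) with h0 | h0
    · exact ⟨1, one_ne_zero, fun c a _ d hd => by omega⟩
    · have h3 := Nat.find_min hex (m := Nat.find hex - 1) (by omega)
      have hE := empG_one h hp' (m := m) (d := Nat.find hex - 1) (by
        rw [← not_le]
        intro h4
        exact h3 ((thr h.sg h.s3 _ _).1 h4))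
      obtain ⟨t0, t1, _⟩ := num_tau h.num
      obtain ⟨F, hF, hF'⟩ := one_of_emp (k := k) t0 t1 (chain2 h.num hE)
      exact ⟨F, hF, fun c a hc d hd => hF' c a hc d (by omega)⟩
  refine ⟨F1 * F2, mul_ne_zero hF1 hF2, fun c a hc d => ?_⟩
  rw [map_mul] at hc
  by_cases hG : ¬ 3 ∣ d ∨ (d : ℝ) ≤ √(n : ℝ) * m ∨ √(n : ℝ) * (2 * m + 1) ≤ 2 * d + 3
  · exact Or.inl (h1 c a (left_ne_zero_of_mul hc) d hG)
  · push Not at hG
    obtain ⟨g1, g2, g3⟩ := hG
    have h4 : d < Nat.find hex := by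
      by_contra hcon
      have h5 := Nat.find_spec hex
      have h6 : ((Nat.find hex : ℕ) : ℝ) ≤ d := by exact_mod_cast not_lt.1 hcon
      have h7 : 2 * (d : ℝ) + 3 < σ * (2 * m + 1) := by rw [hσ]; exact g3
      linarith
    have h5 := h2 c a (right_ne_zero_of_mul hc) d h4
    have h6 := jdim_ge (r := n) (m := m) (c := c) (a := a) (d := d)
    rw [jetDim_iff]
    by_cases h7 : jdim n m c a d = (d + 2).choose 2 - n * (m + 1).choose 2
    · exact Or.inl h7
    · exact Or.inr ⟨by omega, by omega, g1, g2, g3⟩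

theorem Win.unique {r m d d' : ℕ} (hr : r < 25) (h : Win r m d) (h' : Win r m d') : d = d' := by
  obtain ⟨-, a1, a2⟩ := h
  obtain ⟨-, b1, b2⟩ := h'
  have h5 : √(r : ℝ) < 5 := by
    rw [Real.sqrt_lt' (by norm_num)]
    have : (r : ℝ) < 25 := by exact_mod_cast hr
    linarith
  have c1 : (d : ℝ) < d' + 1 := by linarith
  have c2 : (d' : ℝ) < d + 1 := by linarith
  have c3 : d < d' + 1 := by exact_mod_cast c1
  have c4 : d' < d + 1 := by exact_mod_cast c2
  omega

theorem full_iff {K : Type u} [Field K] {r m d : ℕ} {c : K} {a : Fin r → K} :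
    jdim r m c a d = 0 ↔
      mspan K (↑(Tfin d) : Set (ℕ × ℕ)) ⊓ Submodule.restrictScalars K (jetIdeal m c a) = ⊥ := by
  rw [jdim_eq, coe_Tfin]
  have hfd : FiniteDimensional K (mspan K (Tset d)) := by
    rw [← coe_Tfin]
    unfold mspan
    exact FiniteDimensional.span_of_finite K (((Tfin d).finite_toSet).image _)
  have : FiniteDimensional K ↥(mspan K (Tset d) ⊓ Submodule.restrictScalars K (jetIdeal m c a)) :=
    Submodule.finiteDimensional_inf_left _ _
  exact Submodule.finrank_eq_zero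

/-- **the alternative depends only on the characteristic** -/
theorem coll_gen {q v n : ℕ} {K σ : ℝ} (h : Num2 q v n K σ) (hσ : σ = √(n : ℝ)) (hn : 10 ≤ n)
    (hn' : n < 25) (m p : ℕ) :
    (∀ (k : Type u) [Field k] [CharP k p],
      ∃ F : MvPolynomial (Fin (n + 1)) k, F ≠ 0 ∧
        ∀ (c : k) (a : Fin n → k), MvPolynomial.eval (Fin.cons c a : Fin (n + 1) → k) F ≠ 0 →
          ∀ d : ℕ, JetDim n m c a d) ∨
    ∃ d₀ : ℕ, Win n m d₀ ∧ (d₀ + 2).choose 2 ≤ n * (m + 1).choose 2 ∧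
      ∀ (k : Type u) [Field k] [CharP k p],
        ∃ F : MvPolynomial (Fin (n + 1)) k, F ≠ 0 ∧
          ∀ (c : k) (a : Fin n → k), MvPolynomial.eval (Fin.cons c a : Fin (n + 1) → k) F ≠ 0 →
            jdim n m c a d₀ = 1 ∧ ∀ d : ℕ, d ≠ d₀ → JetDim n m c a d := by
  classical
  by_cases hW : ∃ d₀ : ℕ, Win n m d₀ ∧ (d₀ + 2).choose 2 ≤ n * (m + 1).choose 2
  · obtain ⟨d₀, hd₀, hχ⟩ := hW
    by_cases hz : ∃ (K' : Type u) (_ : Field K') (_ : CharP K' p) (c0 : K') (a0 : Fin n → K'),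
        jdim n m c0 a0 d₀ = 0
    · left
      intro k _ _
      obtain ⟨K', _, _, c0, a0, h0⟩ := hz
      obtain ⟨F1, hF1, h1⟩ := coll_one h hσ hn m k
      obtain ⟨F2, hF2, h2⟩ := transfer_set (L := k) p (full_iff.1 h0)
      refine ⟨F1 * F2, mul_ne_zero hF1 hF2, fun c a hc d => ?_⟩
      rw [map_mul] at hc
      rcases h1 c a (left_ne_zero_of_mul hc) d with h3 | ⟨-, -, h3⟩
      · exact h3
      · have hd := Win.unique hn' h3 hd₀
        subst hd
        rw [jetDim_iff, full_iff.2 (h2 c a (right_ne_zero_of_mul hc))]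
        omega
    · right
      refine ⟨d₀, hd₀, hχ, fun k _ _ => ?_⟩
      obtain ⟨F1, hF1, h1⟩ := coll_one h hσ hn m k
      refine ⟨F1, hF1, fun c a hc => ⟨?_, fun d hd => ?_⟩⟩
      · rcases h1 c a hc d₀ with h3 | ⟨h3, -, -⟩
        · exfalso
          rw [jetDim_iff] at h3
          exact hz ⟨k, inferInstance, inferInstance, c, a, by omega⟩
        · exact h3
      · rcases h1 c a hc d with h3 | ⟨-, -, h3⟩
        · exact h3
        · exact absurd (Win.unique hn' h3 hd₀) hd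
  · left
    intro k _ _
    obtain ⟨F1, hF1, h1⟩ := coll_one h hσ hn m k
    refine ⟨F1, hF1, fun c a hc d => ?_⟩
    rcases h1 c a hc d with h3 | ⟨-, h3, h4⟩
    · exact h3
    · exact absurd ⟨d, h4, h3⟩ hW

end Pool.Agent.Q197.SC
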